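import Pool.Agent.Q103.EC.Stm2

/-!
# EC-B2: integrality over the logarithmic derivatives of the cross ratios
-/

set_option autoImplicit false

open Polynomial FF Finset

namespace Pool.Agent.Q149.EC

open Pool.Agent.Q41.SU Pool.Agent.Q41.GT Pool.Agent.Q103.EC

section

variable {K L : Type} [Field K] [Field L] (j : L →+* K)

theorem gfn_map (E₀ d : ℕ) {α₀ : L → L} {α : K → K} (p₀ q₀ : L[X]) {z z' : L}
    (h : j (α₀ z) = α (j z)) (h' : j (α₀ z') = α (j z')) :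
    j (gfn E₀ d α₀ p₀ q₀ z z') = gfn E₀ d α (p₀.map j) (q₀.map j) (j z) (j z') := by
  unfold gfn
  rw [resultant_map_map, map_div₀, map_mul, map_pow, map_pow, map_pow, map_mul, map_sub, h, h']

theorem GG_map (E₀ d : ℕ) {α₀ : L → L} {α : K → K} (p₀ q₀ : L[X]) {P₀ : Finset L}
    {P : Finset K} (hP : ∀ z, z ∈ P₀ ↔ j z ∈ P) (hP' : ∀ z ∈ P, ∃ z₀, j z₀ = z)
    (h : ∀ z ∈ P₀, j (α₀ z) = α (j z)) :
    j (GG E₀ d α₀ p₀ q₀ P₀) = GG E₀ d α (p₀.map j) (q₀.map j) P := by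
  classical
  have e : P = P₀.image j := by
    ext z
    rw [mem_image]
    constructor
    · intro hz
      obtain ⟨z₀, rfl⟩ := hP' z hz
      exact ⟨z₀, (hP z₀).2 hz, rfl⟩
    · rintro ⟨z₀, hz, rfl⟩
      exact (hP z₀).1 hz
  unfold GG
  rw [e, map_prod, prod_image (fun a _ b _ hab => j.injective hab)]
  refine prod_congr (by congr) fun z hz => ?_
  rw [map_prod, ← image_erase j.injective, prod_image (fun a _ b _ hab => j.injective hab)]
  refine prod_congr (by congr) fun z' hz' => ?_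
  exact gfn_map j E₀ d p₀ q₀ (h z hz) (h z' (mem_of_mem_erase hz'))

theorem slp_map {J : Type} {x₀ y₀ : J → L} {x y : J → K} (hx : ∀ l, j (x₀ l) = x l)
    (i l : J) (hy : j (y₀ i) = y i) (hy' : j (y₀ l) = y l) : j (slp x₀ y₀ i l) = slp x y i l := by
  unfold slp
  rw [map_div₀, map_sub, map_sub, hx, hx, hy, hy']

theorem lgs_map {P₀ : Finset L} {P : Finset K} (hP : ∀ z, z ∈ P₀ ↔ j z ∈ P) {y₀ : L → L}
    {y : K → K} (h : ∀ z ∈ P₀, j (y₀ z) = y (j z)) {s : L} (hs : s ∈ lgs P₀ y₀) :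
    j s ∈ lgs P y := by
  obtain ⟨i, hi, l, hl, m, hm, n, hn, h1, h2, h3, h4, rfl⟩ := hs
  refine ⟨j i, (hP _).1 hi, j l, (hP _).1 hl, j m, (hP _).1 hm, j n, (hP _).1 hn,
    fun h => h1 (j.injective h), fun h => h2 (j.injective h), fun h => h3 (j.injective h),
    fun h => h4 (j.injective h), ?_⟩
  unfold lgd slp
  simp only [map_sub, map_add, map_div₀, h i hi, h l hl, h m hm, h n hn]

theorem wro_map {a b : ℕ} (φ : II a b → ℕ × ℕ) (x₀ y₀ : II a b → L) :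
    j (wro φ x₀ y₀) = wro φ (fun l => j (x₀ l)) (fun l => j (y₀ l)) := by
  unfold wro
  rw [RingHom.map_det]
  congr 1
  ext l c
  simp

theorem pprod_map {J : Type} [Fintype J] [DecidableEq J] {g₀ : L → L → L} {g : K → K → K}
    (x₀ : J → L) (h : ∀ l m, j (g₀ (x₀ l) (x₀ m)) = g (j (x₀ l)) (j (x₀ m))) :
    j (pprod g₀ x₀) = pprod g (fun l => j (x₀ l)) := by
  unfold pprod
  rw [map_prod]
  refine prod_congr rfl fun l _ => ?_
  rw [map_prod]
  exact prod_congr rfl fun m _ => h l m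

theorem PhiY_map {a b : ℕ} (φ : II a b → ℕ × ℕ) (E₀ d : ℕ) {α₀ : L → L} {α : K → K}
    (p₀ q₀ : L[X]) (x₀ : II a b → L) {y₀ : L → L} {y : K → K}
    (h : ∀ l, j (α₀ (x₀ l)) = α (j (x₀ l))) (h' : ∀ l, j (y₀ (x₀ l)) = y (j (x₀ l))) :
    j (PhiY φ E₀ d α₀ p₀ q₀ x₀ y₀) =
      PhiY φ E₀ d α (p₀.map j) (q₀.map j) (fun l => j (x₀ l)) y := by
  unfold PhiY
  rw [map_div₀, map_mul, map_pow, map_pow, map_pow, wro_map,
    pprod_map j (g := gfn E₀ d α (p₀.map j) (q₀.map j)) x₀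
      (fun l m => gfn_map j E₀ d p₀ q₀ (h l) (h m)),
    pprod_map j (g := fun z z' => z - z') x₀ (fun l m => map_sub j _ _)]
  simp only [h']

theorem crs_lift {P₀ : Finset L} {P : Finset K} (hP : ∀ z, z ∈ P₀ ↔ j z ∈ P)
    (hP' : ∀ z ∈ P, ∃ z₀, j z₀ = z) {c : K} (hc : c ∈ crs P) : ∃ c₀ ∈ crs P₀, j c₀ = c := by
  obtain ⟨x0, h0, x1, h1, x2, h2, x, hx, e1, e2, e3, e4, e5, rfl⟩ := hc
  obtain ⟨x0, rfl⟩ := hP' _ h0
  obtain ⟨x1, rfl⟩ := hP' _ h1
  obtain ⟨x2, rfl⟩ := hP' _ h2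
  obtain ⟨x, rfl⟩ := hP' _ hx
  refine ⟨_, ⟨x0, (hP _).2 h0, x1, (hP _).2 h1, x2, (hP _).2 h2, x, (hP _).2 hx,
    fun h => e1 (by rw [h]), fun h => e2 (by rw [h]), fun h => e3 (by rw [h]),
    fun h => e4 (by rw [h]), fun h => e5 (by rw [h]), rfl⟩, ?_⟩
  simp only [map_sub, map_mul, map_div₀]

theorem hfs_lift (E₀ d : ℕ) {α₀ : L → L} {α : K → K} (p₀ q₀ : L[X]) {P₀ : Finset L}
    {P : Finset K} (hP : ∀ z, z ∈ P₀ ↔ j z ∈ P) (hP' : ∀ z ∈ P, ∃ z₀, j z₀ = z)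
    (h : ∀ z ∈ P₀, j (α₀ z) = α (j z)) {f : K}
    (hf : f ∈ hfs E₀ d α (p₀.map j) (q₀.map j) P) : ∃ f₀ ∈ hfs E₀ d α₀ p₀ q₀ P₀, j f₀ = f := by
  rcases hf with rfl | ⟨c, hc, rfl⟩
  · exact ⟨_, Or.inl rfl, GG_map j E₀ d p₀ q₀ hP hP' h⟩
  · obtain ⟨c₀, hc₀, rfl⟩ := crs_lift j hP hP' hc
    refine ⟨_, Or.inr ⟨c₀, hc₀, rfl⟩, ?_⟩
    rw [map_mul, GG_map j E₀ d p₀ q₀ hP hP' h]

end

theorem lgs_finite {K : Type} [Field K] (P : Finset K) (y : K → K) : (lgs P y).Finite := by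
  have h1 : lgs P y ⊆ (fun t : K × K × K × K => lgd (fun z : K => z) y t.1 t.2.1 t.2.2.1 t.2.2.2) ''
      ((P : Set K) ×ˢ (P : Set K) ×ˢ (P : Set K) ×ˢ (P : Set K)) := by
    rintro s ⟨i, hi, l, hl, m, hm, n, hn, -, -, -, -, rfl⟩
    exact ⟨(i, l, m, n), ⟨hi, hl, hm, hn⟩, rfl⟩
  refine Set.Finite.subset (Set.Finite.image _ ?_) h1
  exact P.finite_toSet.prod (P.finite_toSet.prod (P.finite_toSet.prod P.finite_toSet))

/-- **EC-B2.** -/
theorem t_intg (hord : S_ordL) (hval : S_val) : S_intg := by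
  classical
  intro d hd
  obtain ⟨a, b, φ, hb, hab, ha, hcol, hcst, H⟩ := hord d hd
  refine ⟨a, b, φ, hb, hab, ha, hcol, hcst, fun n E₀ hE₀ => ?_⟩
  obtain ⟨C', hC', H⟩ := H n E₀ hE₀
  refine ⟨C', hC', ?_⟩
  intro k K _ _ _ _ p q hp hq hpq P hP hn α hα0 hα y x hx hxP f hf
  refine ⟨?_, fun v D hD hy =>
    H k K p q hp hq hpq P hP hn α hα0 hα v y (Or.inl ⟨D, hD, hy⟩) x hx hxP f hf⟩
  -- the field of definition
  let T : Finset K := p.support.image p.coeff ∪ q.support.image q.coeff ∪ P ∪ P.image α ∪ P.image y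
  obtain ⟨L, hL⟩ : ∃ L, L = IntermediateField.adjoin k (T : Set K) := ⟨_, rfl⟩
  have hTL : ∀ z ∈ T, z ∈ L := by
    intro z hz
    rw [hL]
    exact IntermediateField.subset_adjoin _ _ hz
  have hPL : ∀ z ∈ P, z ∈ L := fun z hz => hTL z (by simp only [T, mem_union]; tauto)
  have hαL : ∀ z ∈ P, α z ∈ L := fun z hz => hTL _ (by
    simp only [T, mem_union]
    exact Or.inl (Or.inr (mem_image_of_mem _ hz)))
  have hyL : ∀ z ∈ P, y z ∈ L := fun z hz => hTL _ (by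
    simp only [T, mem_union]
    exact Or.inr (mem_image_of_mem _ hz))
  have hpL : ∀ i, p.coeff i ∈ L := by
    intro i
    by_cases hi : p.coeff i = 0
    · rw [hi]
      exact L.zero_mem
    · refine hTL _ ?_
      simp only [T, mem_union]
      exact Or.inl (Or.inl (Or.inl (Or.inl (mem_image_of_mem _ (mem_support_iff.2 hi)))))
  have hqL : ∀ i, q.coeff i ∈ L := by
    intro i
    by_cases hi : q.coeff i = 0
    · rw [hi]
      exact L.zero_mem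
    · refine hTL _ ?_
      simp only [T, mem_union]
      exact Or.inl (Or.inl (Or.inl (Or.inr (mem_image_of_mem _ (mem_support_iff.2 hi)))))
  let j : L →+* K := algebraMap L K
  have hj : ∀ z (hz : z ∈ L), j ⟨z, hz⟩ = z := fun z hz => rfl
  obtain ⟨p₀, hp₀⟩ : ∃ p₀ : L[X], p₀.map j = p :=
    (lifts_iff_coeff_lifts p).2 fun i => ⟨⟨_, hpL i⟩, rfl⟩
  obtain ⟨q₀, hq₀⟩ : ∃ q₀ : L[X], q₀.map j = q :=
    (lifts_iff_coeff_lifts q).2 fun i => ⟨⟨_, hqL i⟩, rfl⟩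
  subst hp₀ hq₀
  let P₀ : Finset L := P.subtype (· ∈ L)
  have hPm : ∀ z : L, z ∈ P₀ ↔ j z ∈ P := fun z => mem_subtype
  have hP' : ∀ z ∈ P, ∃ z₀ : L, j z₀ = z := fun z hz => ⟨⟨z, hPL z hz⟩, rfl⟩
  let α₀ : L → L := fun z => if h : α (j z) ∈ L then ⟨α (j z), h⟩ else 1
  let y₀ : L → L := fun z => if h : y (j z) ∈ L then ⟨y (j z), h⟩ else 0
  have hα₀ : ∀ z ∈ P₀, j (α₀ z) = α (j z) := by
    intro z hz
    have h1 := hαL _ ((hPm z).1 hz)
    simp only [α₀, dif_pos h1]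
    rfl
  have hy₀ : ∀ z ∈ P₀, j (y₀ z) = y (j z) := by
    intro z hz
    have h1 := hyL _ ((hPm z).1 hz)
    simp only [y₀, dif_pos h1]
    rfl
  let x₀ : II a b → L := fun l => ⟨x l, hPL _ (hxP l)⟩
  have hx₀ : ∀ l, x₀ l ∈ P₀ := fun l => (hPm _).2 (hxP l)
  have hxj : (fun l => j (x₀ l)) = x := rfl
  have hev : ∀ (r : L[X]) (z : L), (r.map j).eval (j z) = j (r.eval z) := fun r z => by
    rw [eval_map, eval₂_at_apply]
  obtain ⟨f₀, hf₀, rfl⟩ := hfs_lift j E₀ d p₀ q₀ hPm hP' hα₀ hf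
  have e : PhiY φ E₀ d α (p₀.map j) (q₀.map j) x y ^ C' * j f₀ =
      j (PhiY φ E₀ d α₀ p₀ q₀ x₀ y₀ ^ C' * f₀) := by
    rw [map_mul, map_pow, PhiY_map j φ E₀ d p₀ q₀ x₀ (fun l => hα₀ _ (hx₀ l))
      (fun l => hy₀ _ (hx₀ l)), hxj]
  rw [e]
  have hess : Algebra.EssFiniteType k L := by
    rw [IntermediateField.essFiniteType_iff]
    exact ⟨T, hL.symm⟩
  obtain ⟨S, hS⟩ := IntermediateField.fg_top k L
  have hint : IsIntegral (Algebra.adjoin k ((lgs_finite P₀ y₀).toFinset : Set L))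
      (PhiY φ E₀ d α₀ p₀ q₀ x₀ y₀ ^ C' * f₀) := by
    refine hval k L S hS _ _ fun v hv => ?_
    refine H k L p₀ q₀ ?_ ?_ ?_ P₀ ?_ ?_ α₀ ?_ ?_ v y₀ (Or.inr ?_) x₀ ?_ hx₀ f₀ hf₀
    · rwa [natDegree_map] at hp
    · rwa [natDegree_map] at hq
    · exact (isCoprime_map j).1 hpq
    · intro z hz
      obtain ⟨h1, h2⟩ := hP _ ((hPm z).1 hz)
      rw [hev, hev] at h2
      rw [hev] at h1
      refine ⟨fun h3 => h1 (by rw [h3, map_zero]), (hPm _).2 ?_⟩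
      rw [map_div₀]
      exact h2
    · rw [← hn]
      have e1 : P = P₀.image j := by
        ext z
        rw [mem_image]
        constructor
        · intro hz
          obtain ⟨z₀, rfl⟩ := hP' z hz
          exact ⟨z₀, (hPm z₀).2 hz, rfl⟩
        · rintro ⟨z₀, hz, rfl⟩
          exact (hPm z₀).1 hz
      rw [e1, card_image_of_injective _ j.injective]
    · intro z
      by_cases h1 : α (j z) ∈ L
      · simp only [α₀, dif_pos h1]
        intro h2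
        exact hα0 (j z) (congrArg j h2)
      · simp only [α₀, dif_neg h1]
        exact one_ne_zero
    · intro z hz
      apply j.injective
      have h1 := hα _ ((hPm z).1 hz)
      have h2 := (hP _ ((hPm z).1 hz)).2
      rw [hev, hev, ← map_div₀] at h2
      rw [hev, hev, ← map_div₀] at h1
      rw [map_mul, map_pow, map_pow, hα₀ z hz, hα₀ _ ((hPm _).2 h2)]
      exact h1
    · intro s hs
      exact hv s ((Set.Finite.mem_toFinset _).2 hs)
    · intro l l' h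
      apply hx
      exact congrArg j h
  rw [Set.Finite.coe_toFinset] at hint
  have hmem : ∀ s ∈ Algebra.adjoin k (lgs P₀ y₀), j s ∈ Algebra.adjoin k (lgs P y) := by
    intro s hs
    have h1 : L.val s ∈ (Algebra.adjoin k (lgs P₀ y₀)).map L.val :=
      Subalgebra.mem_map.2 ⟨s, hs, rfl⟩
    rw [AlgHom.map_adjoin] at h1
    refine Algebra.adjoin_mono ?_ h1
    rintro _ ⟨t, ht, rfl⟩
    exact lgs_map j hPm hy₀ ht
  let ψ : Algebra.adjoin k (lgs P₀ y₀) →+* Algebra.adjoin k (lgs P y) :=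
    (j.comp (algebraMap (Algebra.adjoin k (lgs P₀ y₀)) L)).codRestrict
      (Algebra.adjoin k (lgs P y)) fun s => hmem s s.2
  exact hint.map_of_comp_eq ψ j (RingHom.ext fun s => rfl)

end Pool.Agent.Q149.EC
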