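import Pool.Agent.Q103.EC.Stm2
import Pool.Agent.Y562.NN.DVR
import Pool.Agent.Helper386.D5V.Helper386_FF_Fund

/-!
# The valuative criterion of integrality with discrete valuations
-/

set_option autoImplicit false

open Polynomial FF

namespace Pool.Agent.Q149.EC

/-- an element of the ring generated by its inverse is integral -/
theorem integral_of_mem_adjoin_inv {k L : Type} [Field k] [Field L] [Algebra k L] (B : Set L)
    {A : L} (hA : A ≠ 0) (h : A ∈ Algebra.adjoin k (B ∪ {A⁻¹})) :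
    IsIntegral (Algebra.adjoin k B) A := by
  rw [Algebra.adjoin_union_eq_adjoin_adjoin, Subalgebra.mem_restrictScalars,
    Algebra.adjoin_singleton_eq_range_aeval] at h
  obtain ⟨f, hf⟩ := h
  have hf' : eval₂ (algebraMap (Algebra.adjoin k B) L) A⁻¹ f = A := hf
  let _ : Invertible A⁻¹ := invertibleOfNonzero (inv_ne_zero hA)
  have h1 := eval₂_reverse_mul_pow (algebraMap (Algebra.adjoin k B) L) A⁻¹ f
  rw [hf', invOf_eq_inv, inv_inv] at h1
  refine ⟨X ^ (f.natDegree + 1) - f.reverse, monic_X_pow_sub ?_, ?_⟩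
  · refine (natDegree_le_iff_degree_le.1 (reverse_natDegree_le f)).trans_lt ?_
    exact_mod_cast Nat.lt_succ_self _
  · rw [eval₂_sub, eval₂_X_pow, sub_eq_zero]
    have h2 : A⁻¹ ^ f.natDegree ≠ 0 := pow_ne_zero _ (inv_ne_zero hA)
    apply mul_right_cancel₀ h2
    rw [h1, pow_succ, inv_pow]
    field_simp

/-- elements of a field which are polynomials in independent elements -/
theorem mem_of_mem_adjoin_union {k L : Type} [Field k] [Field L] [Algebra k L] (R₀ T : Set L)
    (hT : AlgebraicIndependent (IntermediateField.adjoin k R₀) ((↑) : T → L)) {A : L}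
    (hA : A ∈ IntermediateField.adjoin k R₀) (h : A ∈ Algebra.adjoin k (R₀ ∪ T)) :
    A ∈ Algebra.adjoin k R₀ := by
  rw [Algebra.adjoin_union_eq_adjoin_adjoin, Subalgebra.mem_restrictScalars] at h
  have e : Algebra.adjoin (Algebra.adjoin k R₀) T =
      (MvPolynomial.aeval ((↑) : T → L) : MvPolynomial T (Algebra.adjoin k R₀) →ₐ[_] L).range :=
    Algebra.adjoin_eq_range _ _
  rw [e] at h
  obtain ⟨P, hP⟩ := h
  have hle := IntermediateField.algebra_adjoin_le_adjoin k R₀
  let j : Algebra.adjoin k R₀ →+* IntermediateField.adjoin k R₀ :=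
    (Subalgebra.inclusion hle).toRingHom
  have hj : (algebraMap (IntermediateField.adjoin k R₀) L).comp j =
      algebraMap (Algebra.adjoin k R₀) L := rfl
  have h1 : MvPolynomial.aeval ((↑) : T → L) (P.map j) =
      MvPolynomial.aeval ((↑) : T → L)
        (MvPolynomial.C (⟨A, hA⟩ : IntermediateField.adjoin k R₀)) := by
    rw [MvPolynomial.aeval_def, MvPolynomial.eval₂_map, hj, MvPolynomial.aeval_C]
    exact hP
  have h2 := hT h1
  have h3 := congrArg MvPolynomial.constantCoeff h2
  rw [MvPolynomial.constantCoeff_map, MvPolynomial.constantCoeff_C] at h3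
  have h4 : ((MvPolynomial.constantCoeff P : Algebra.adjoin k R₀) : L) = A :=
    congrArg (Subtype.val) h3
  rw [← h4]
  exact (MvPolynomial.constantCoeff P).2

open scoped IntermediateField.algebraAdjoinAdjoin in
/-- a transcendence basis consisting of generators -/
theorem exists_fin {k L : Type} [Field k] [Field L] [Algebra k L] (S : Finset L)
    (hS : IntermediateField.adjoin k (S : Set L) = ⊤) (R₀ : Set L) :
    ∃ T : Set L, T.Finite ∧ AlgebraicIndependent (IntermediateField.adjoin k R₀) ((↑) : T → L) ∧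
      FiniteDimensional (IntermediateField.adjoin k (R₀ ∪ T)) L := by
  have hal : Algebra.IsAlgebraic (Algebra.adjoin (IntermediateField.adjoin k R₀) (S : Set L)) L := by
    have h1 : ∀ x : L, x ∈ IntermediateField.adjoin (IntermediateField.adjoin k R₀) (S : Set L) := by
      intro x
      have h2 : x ∈ IntermediateField.adjoin k (R₀ ∪ (S : Set L)) := by
        have h3 : x ∈ IntermediateField.adjoin k (S : Set L) := by
          rw [hS]
          exact IntermediateField.mem_top
        exact IntermediateField.adjoin.mono _ _ _ Set.subset_union_right h3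
      rw [← IntermediateField.adjoin_adjoin_left] at h2
      exact h2
    refine ⟨fun x => ?_⟩
    have h2 := Algebra.IsAlgebraic.isAlgebraic
      (R := Algebra.adjoin (IntermediateField.adjoin k R₀) (S : Set L))
      (⟨x, h1 x⟩ : IntermediateField.adjoin (IntermediateField.adjoin k R₀) (S : Set L))
    exact h2.algebraMap (A := L)
  obtain ⟨T, -, hTS, hT⟩ := exists_isTranscendenceBasis_between
    (R := IntermediateField.adjoin k R₀) (∅ : Set L) (S : Set L) (Set.empty_subset _)
    ((algebraicIndependent_empty_iff _ _).2 (FaithfulSMul.algebraMap_injective _ L))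
  refine ⟨T, S.finite_toSet.subset hTS, hT.1, ?_⟩
  have h1 := hT.isAlgebraic_field
  rw [Subtype.range_coe] at h1
  have h2 : Algebra.IsAlgebraic (IntermediateField.adjoin k (R₀ ∪ T)) L := by
    rw [← IntermediateField.adjoin_adjoin_left]
    exact h1
  have h3 : Algebra.EssFiniteType k L := IntermediateField.fg_top_iff.1 ⟨S, hS⟩
  have h4 : Algebra.EssFiniteType (IntermediateField.adjoin k (R₀ ∪ T)) L :=
    Algebra.EssFiniteType.of_comp k _ L
  exact Algebra.finite_of_essFiniteType_of_isAlgebraic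

/-- the place of a discrete valuation ring -/
theorem exists_place {k L : Type} [Field k] [Field L] [Algebra k L] (V : ValuationSubring L)
    [IsDiscreteValuationRing V] (hk : ∀ c : k, algebraMap k L c ∈ V) :
    ∃ P : Place k L, ∀ x : L, P.Reg x ↔ x ∈ V := by
  let _ : Algebra k V := ((algebraMap k L).codRestrict V.toSubring hk).toAlgebra
  have _ : IsScalarTower k V L := IsScalarTower.of_algebraMap_eq fun x => rfl
  let P := IsDiscreteValuationRing.maximalIdeal V
  refine ⟨placeOf (k := k) (L := L) P, fun x => ⟨fun h => ?_, fun h => ?_⟩⟩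
  · rcases V.mem_or_inv_mem x with h1 | h1
    · exact h1
    by_cases hx : x = 0
    · rw [hx]
      exact V.zero_mem
    by_contra h2
    have h3 : (⟨x⁻¹, h1⟩ : V) ∈ P.asIdeal := by
      change (⟨x⁻¹, h1⟩ : V) ∈ IsLocalRing.maximalIdeal V
      rw [IsLocalRing.mem_maximalIdeal, mem_nonunits_iff]
      intro h4
      apply h2
      obtain ⟨u, hu⟩ := h4
      have h5 : ((u⁻¹ : Vˣ) : V) * (⟨x⁻¹, h1⟩ : V) = 1 := by
        rw [← hu]
        exact Units.inv_mul u
      have h6 : (((u⁻¹ : Vˣ) : V) : L) * x⁻¹ = 1 := congrArg Subtype.val h5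
      have h7 : (((u⁻¹ : Vˣ) : V) : L) = x := by
        rw [← div_eq_mul_inv, div_eq_one_iff_eq hx] at h6
        exact h6
      rw [← h7]
      exact ((u⁻¹ : Vˣ) : V).2
    have h4 := (P.valuation_lt_one_iff_mem (K := L) (⟨x⁻¹, h1⟩ : V)).2 h3
    have h5 : 0 < (placeOf (k := k) (L := L) P).ord x⁻¹ :=
      (placeOf_pos P (inv_ne_zero hx)).2 h4
    rw [Place.ord_inv] at h5
    have h6 := (Place.reg_iff _ hx).1 h
    omega
  · exact placeOf_reg P (⟨x, h⟩ : V)

open scoped IntermediateField.algebraAdjoinAdjoin in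
/-- **The valuative criterion of integrality with discrete valuations.** -/
theorem valcrit {k L : Type} [Field k] [Field L] [Algebra k L] (S : Finset L)
    (hS : IntermediateField.adjoin k (S : Set L) = ⊤) (B : Set L) (hB : B.Finite) (A : L)
    (h : ∀ v : Place k L, (∀ b ∈ B, v.Reg b) → v.Reg A) : IsIntegral (Algebra.adjoin k B) A := by
  by_cases hA : A = 0
  · rw [hA]
    exact isIntegral_zero
  by_contra hint
  obtain ⟨T, hTf, hT, hfd⟩ := exists_fin S hS (B ∪ {A⁻¹})
  have hAF : A ∈ IntermediateField.adjoin k (B ∪ {A⁻¹}) := by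
    have h1 : A⁻¹ ∈ IntermediateField.adjoin k (B ∪ {A⁻¹}) :=
      IntermediateField.subset_adjoin _ _ (Or.inr rfl)
    have h2 := inv_mem h1
    rwa [inv_inv] at h2
  obtain ⟨R, hR⟩ : ∃ R, R = Algebra.adjoin k (B ∪ {A⁻¹} ∪ T) := ⟨_, rfl⟩
  have hAR : A ∉ R := by
    intro h1
    rw [hR] at h1
    exact hint (integral_of_mem_adjoin_inv B hA (mem_of_mem_adjoin_union _ T hT hAF h1))
  have hft : Algebra.FiniteType k R := by
    rw [hR]
    exact Algebra.FiniteType.adjoin_of_finite ((hB.union (Set.finite_singleton _)).union hTf)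
  have hN : IsNoetherianRing R := Algebra.FiniteType.isNoetherianRing k R
  have hAi : A⁻¹ ∈ R := by
    rw [hR]
    exact Algebra.subset_adjoin (Or.inl (Or.inr rfl))
  have hnu : ¬ IsUnit (⟨A⁻¹, hAi⟩ : R) := by
    intro h4
    apply hAR
    obtain ⟨u, hu⟩ := h4
    have h5 : ((u⁻¹ : Rˣ) : R) * (⟨A⁻¹, hAi⟩ : R) = 1 := by
      rw [← hu]
      exact Units.inv_mul u
    have h6 : (((u⁻¹ : Rˣ) : R) : L) * A⁻¹ = 1 := congrArg Subtype.val h5
    have h7 : (((u⁻¹ : Rˣ) : R) : L) = A := by
      rw [← div_eq_mul_inv, div_eq_one_iff_eq hA] at h6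
      exact h6
    rw [← h7]
    exact ((u⁻¹ : Rˣ) : R).2
  have h1 : Ideal.span {(⟨A⁻¹, hAi⟩ : R)} ≠ ⊤ := by
    rw [Ne, Ideal.span_singleton_eq_top]
    exact hnu
  obtain ⟨𝔮, h𝔮⟩ := Ideal.nonempty_minimalPrimes h1
  have hp : 𝔮.IsPrime := h𝔮.1.1
  have h2 : 𝔮.height ≤ 1 := Ideal.height_le_one_of_isPrincipal_of_mem_minimalPrimes _ 𝔮 h𝔮
  have hmem : (⟨A⁻¹, hAi⟩ : R) ∈ 𝔮 := h𝔮.1.2 (Ideal.mem_span_singleton_self _)
  have h3 : 𝔮 ≠ ⊥ := by
    intro h0
    rw [h0, Ideal.mem_bot] at hmem
    exact inv_ne_zero hA (congrArg Subtype.val hmem)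
  subst hR
  obtain ⟨V, hV, hV1, hV2, -⟩ := Pool.Agent.Y562.NN.exists_dvr
    (Algebra.adjoin k (B ∪ {A⁻¹} ∪ T)) (IntermediateField.adjoin k (B ∪ {A⁻¹} ∪ T)) L 𝔮 h3 h2
  have hle : ∀ b : Algebra.adjoin k (B ∪ {A⁻¹} ∪ T), (b : L) ∈ V := by
    intro b
    rw [← V.valuation_le_one_iff]
    by_cases hb : b ∈ 𝔮
    · exact (hV1 b hb).le
    · exact (hV2 b hb).le
  obtain ⟨P, hP⟩ := exists_place (k := k) V fun c => hle (algebraMap k _ c)
  have h4 := h P fun b hb => (hP b).2 (hle ⟨b, Algebra.subset_adjoin (Or.inl (Or.inl hb))⟩)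
  have h5 : A ∈ V := (hP A).1 h4
  have h6 := (V.valuation_le_one_iff A).2 h5
  have h7 : V.valuation A⁻¹ < 1 := hV1 _ hmem
  rw [map_inv₀] at h7
  have h8 : V.valuation A ≠ 0 := (map_ne_zero V.valuation).2 hA
  exact absurd h6 (not_le.2 ((inv_lt_one₀ (zero_lt_iff.2 h8)).1 h7))

/-- **EC-B1.** -/
theorem t_val : Pool.Agent.Q103.EC.S_val := by
  intro k L _ _ _ _ S hS B A h
  exact valcrit S hS (B : Set L) B.finite_toSet A h

end Pool.Agent.Q149.EC
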