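import Pool.Agent.Q103.EC.Stm3

/-!
# EC-C1, EC-C2, EC-C3: spreading out, specialization of maps and of algebraic elements
-/

set_option autoImplicit false

open Polynomial

namespace Pool.Agent.Q149.EC

open Pool.Agent.TH466.QG (Sp graph exists_den)
open Pool.Agent.Q41.GT (crs)
open Pool.Agent.Q41.SU (Stab)

/-- **EC-C1.** Spreading out. -/
theorem spr {k L : Type} [Field k] [Field L] [Algebra k L] {σ : Type} {x : σ → L}
    (hx : IntermediateField.adjoin k (Set.range x) = ⊤) {Θ : Set L} (hΘ : Θ.Finite) :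
    ∃ H : MvPolynomial σ k, MvPolynomial.aeval x H ≠ 0 ∧
      ∀ (E : Type) [Field E] [Algebra k E] (z : σ → E),
        (∀ G : MvPolynomial σ k, MvPolynomial.aeval x G = 0 → MvPolynomial.aeval z G = 0) →
        MvPolynomial.aeval z H ≠ 0 →
        ∃ S : Sp k L E, (∀ i, S.T (x i) (z i)) ∧ ∀ ϑ ∈ Θ, ∃ t, S.T ϑ t := by
  obtain ⟨H, hH, hG⟩ := exists_den hx hΘ
  refine ⟨H, hH, fun E _ _ z hz hzH => ?_⟩
  let α : graph k x z →ₐ[k] L := (AlgHom.fst k L E).comp (graph k x z).val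
  let β : graph k x z →ₐ[k] E := (AlgHom.snd k L E).comp (graph k x z).val
  have hker : ∀ b, α b = 0 → β b = 0 := by
    rintro ⟨⟨a, a'⟩, G, H', h1, h2, h3, h4⟩ h0
    change a = 0 at h0
    change a' = 0
    simp only at h3 h4
    rw [h0, zero_mul] at h3
    rw [hz G h3.symm] at h4
    exact (mul_eq_zero.1 h4).resolve_right h2
  refine ⟨Sp.ofHom α β hker, fun i => ?_, fun ϑ hϑ => ?_⟩
  · exact ⟨⟨(x i, z i), MvPolynomial.X i, 1, by rw [map_one]; exact one_ne_zero, by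
      rw [map_one]; exact one_ne_zero, by simp, by simp⟩, rfl, rfl⟩
  · obtain ⟨G, hG'⟩ := hG ϑ hϑ
    exact ⟨MvPolynomial.aeval z G / MvPolynomial.aeval z H,
      ⟨(ϑ, MvPolynomial.aeval z G / MvPolynomial.aeval z H), G, H, hH, hzH, hG',
        div_mul_cancel₀ _ hzH⟩, rfl, rfl⟩

section dom

variable {k K E : Type} [Field k] [Field K] [Field E] [Algebra k K] [Algebra k E]

/-- the ring of the elements which specialize -/
def dom (S : Sp k K E) : Subalgebra k K where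
  carrier := {x | ∃ t, S.T x t}
  mul_mem' := by
    rintro x y ⟨t, ht⟩ ⟨u, hu⟩
    exact ⟨_, S.mul ht hu⟩
  add_mem' := by
    rintro x y ⟨t, ht⟩ ⟨u, hu⟩
    exact ⟨_, S.add ht hu⟩
  algebraMap_mem' c := ⟨_, S.const c⟩

/-- the value -/
noncomputable def sv (S : Sp k K E) (x : dom S) : E := x.2.choose

theorem sv_spec (S : Sp k K E) (x : dom S) : S.T x (sv S x) := x.2.choose_spec

theorem sv_eq (S : Sp k K E) (x : dom S) {t : E} (h : S.T x t) : sv S x = t :=
  S.ext (sv_spec S x) h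

/-- the specialization as a homomorphism -/
noncomputable def shom (S : Sp k K E) : dom S →+* E where
  toFun := sv S
  map_one' := sv_eq S _ S.one
  map_mul' x y := sv_eq S _ (S.mul (sv_spec S x) (sv_spec S y))
  map_zero' := sv_eq S _ S.zero
  map_add' x y := sv_eq S _ (S.add (sv_spec S x) (sv_spec S y))

theorem shom_spec (S : Sp k K E) (x : dom S) : S.T x (shom S x) := sv_spec S x

theorem shom_inv (S : Sp k K E) (x : dom S) (h : (x : K)⁻¹ ∈ dom S) (hx : (x : K) ≠ 0) :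
    shom S x * shom S ⟨(x : K)⁻¹, h⟩ = 1 := by
  rw [← map_mul, ← map_one (shom S)]
  congr 1
  exact Subtype.ext (mul_inv_cancel₀ hx)

theorem shom_ne (S : Sp k K E) (x : dom S) (h : (x : K)⁻¹ ∈ dom S) (hx : (x : K) ≠ 0) :
    shom S x ≠ 0 := left_ne_zero_of_mul (a := shom S x) (b := shom S ⟨(x : K)⁻¹, h⟩) (by
      rw [shom_inv S x h hx]
      exact one_ne_zero)

/-- the value of a quotient -/
theorem shom_div (S : Sp k K E) (x y : dom S) (h : (y : K)⁻¹ ∈ dom S) (hy : (y : K) ≠ 0) :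
    S.T ((x : K) / y) (shom S x / shom S y) := by
  have h1 := shom_inv S y h hy
  have h2 := shom_ne S y h hy
  have h3 : (shom S y)⁻¹ = shom S ⟨(y : K)⁻¹, h⟩ := by
    rw [inv_eq_iff_eq_inv, eq_comm, inv_eq_iff_eq_inv]
    exact (eq_inv_of_mul_eq_one_right h1)
  rw [div_eq_mul_inv, div_eq_mul_inv, h3]
  exact S.mul (shom_spec S x) (shom_spec S ⟨(y : K)⁻¹, h⟩)

end dom

/-- **EC-C2.** Specialization of a map with its points. -/
theorem spm {k K : Type} [Field k] [Field K] [Algebra k K] {d : ℕ} {p q : K[X]} 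
    (hp : p.natDegree ≤ d) (hq : q.natDegree = d) (hpq : IsCoprime p q) (hd : 1 ≤ d)
    {P : Finset K} (hP : Stab p q P) :
    ∃ Θ : Set K, Θ.Finite ∧ ∀ (E : Type) [Field E] [Algebra k E] (S : Sp k K E),
      (∀ ϑ ∈ Θ, ∃ t, S.T ϑ t) → ∃ (p' q' : E[X]) (P' : Finset E), p'.natDegree ≤ d ∧
        q'.natDegree = d ∧ IsCoprime p' q' ∧ Stab p' q' P' ∧ P'.card = P.card ∧
        (∀ c ∈ crs P, ∃ c' ∈ crs P', S.T c c') ∧ ∀ c' ∈ crs P', ∃ c ∈ crs P, S.T c c' := by
  classical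
  obtain ⟨u, v, huv⟩ := hpq
  refine ⟨(↑p.coeffs : Set K) ∪ ↑q.coeffs ∪ ↑u.coeffs ∪ ↑v.coeffs ∪ {q.leadingCoeff⁻¹} ∪ ↑P ∪
    ↑((P ×ˢ P).image fun t => (t.1 - t.2)⁻¹) ∪ ↑(P.image fun z => (q.eval z)⁻¹), ?_, ?_⟩
  · refine Set.Finite.union (Set.Finite.union (Set.Finite.union (Set.Finite.union (Set.Finite.union
      (Set.Finite.union (Set.Finite.union ?_ ?_) ?_) ?_) ?_) ?_) ?_) ?_
    · exact Finset.finite_toSet _
    · exact Finset.finite_toSet _
    · exact Finset.finite_toSet _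
    · exact Finset.finite_toSet _
    · exact Set.finite_singleton _
    · exact Finset.finite_toSet _
    · exact Finset.finite_toSet _
    · exact Finset.finite_toSet _
  intro E _ _ S hS
  have hco : ∀ r : K[X], (∀ c ∈ r.coeffs, c ∈ dom S) → ∃ r₀ : (dom S)[X],
      r₀.map (algebraMap (dom S) K) = r := by
    intro r hr
    refine (lifts_iff_coeff_lifts r).2 fun i => ?_
    by_cases h0 : r.coeff i = 0
    · rw [h0]
      exact ⟨0, map_zero _⟩
    · exact ⟨⟨_, hr _ (coeff_mem_coeffs h0)⟩, rfl⟩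
  obtain ⟨p₀, hp₀⟩ := hco p fun c hc => hS c (by
    simp only [Set.mem_union, Finset.mem_coe]; tauto)
  obtain ⟨q₀, hq₀⟩ := hco q fun c hc => hS c (by
    simp only [Set.mem_union, Finset.mem_coe]; tauto)
  obtain ⟨u₀, hu₀⟩ := hco u fun c hc => hS c (by
    simp only [Set.mem_union, Finset.mem_coe]; tauto)
  obtain ⟨v₀, hv₀⟩ := hco v fun c hc => hS c (by
    simp only [Set.mem_union, Finset.mem_coe]; tauto)
  have hlead : q.leadingCoeff⁻¹ ∈ dom S := hS _ (by
    simp only [Set.mem_union, Finset.mem_coe, Set.mem_singleton_iff]; tauto)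
  have hPd : ∀ z ∈ P, z ∈ dom S := fun z hz => hS _ (by
    simp only [Set.mem_union, Finset.mem_coe]; tauto)
  have hPd2 : ∀ z ∈ P, ∀ z' ∈ P, (z - z')⁻¹ ∈ dom S := fun z hz z' hz' => hS _ (by
    have h1 : (z - z')⁻¹ ∈ (P ×ˢ P).image fun t => (t.1 - t.2)⁻¹ :=
      Finset.mem_image.2 ⟨(z, z'), Finset.mem_product.2 ⟨hz, hz'⟩, rfl⟩
    simp only [Set.mem_union, Finset.mem_coe]; tauto)
  have hPd3 : ∀ z ∈ P, (q.eval z)⁻¹ ∈ dom S := fun z hz => hS _ (by
    have h1 : (q.eval z)⁻¹ ∈ P.image fun z => (q.eval z)⁻¹ := Finset.mem_image_of_mem _ hz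
    simp only [Set.mem_union, Finset.mem_coe]; tauto)
  let ι := algebraMap (dom S) K
  have hι : Function.Injective ι := Subtype.val_injective
  let τ := shom S
  have hev : ∀ (r : (dom S)[X]) (z : dom S), (r.map ι).eval (z : K) = ((r.eval z : dom S) : K) :=
    fun r z => by
      rw [eval_map]
      exact eval₂_at_apply ι z
  have hev' : ∀ (r : (dom S)[X]) (z : dom S), (r.map τ).eval (τ z) = τ (r.eval z) :=
    fun r z => by rw [eval_map, eval₂_at_apply]
  subst hp₀ hq₀ hu₀ hv₀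
  have hqd : q₀.natDegree = d := by
    rw [← hq]
    exact (natDegree_map_eq_of_injective hι q₀).symm
  have hpd : p₀.natDegree ≤ d := by
    rw [← natDegree_map_eq_of_injective hι p₀]
    exact hp
  have hq00 : q₀.map ι ≠ 0 := by
    rintro h0
    change (q₀.map ι).natDegree = d at hq
    rw [h0, natDegree_zero] at hq
    omega
  let P₀ : Finset (dom S) := P.subtype (· ∈ dom S)
  have hPm : ∀ z : dom S, z ∈ P₀ ↔ (z : K) ∈ P := fun z => Finset.mem_subtype
  have hτne : ∀ z ∈ P₀, ∀ z' ∈ P₀, z ≠ z' → τ z - τ z' ≠ 0 := by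
    intro z hz z' hz' hne
    rw [← map_sub]
    refine shom_ne S _ (hPd2 _ ((hPm z).1 hz) _ ((hPm z').1 hz')) ?_
    change (z : K) - z' ≠ 0
    rw [sub_ne_zero]
    exact fun h => hne (Subtype.ext h)
  have hinj : Set.InjOn τ P₀ := by
    intro z hz z' hz' h
    by_contra hne
    exact hτne z hz z' hz' hne (sub_eq_zero.2 h)
  have hcrs : ∀ x0 ∈ P₀, ∀ x1 ∈ P₀, ∀ x2 ∈ P₀, ∀ x ∈ P₀, x0 ≠ x1 → x ≠ x2 →
      S.T ((((x : K) - x0) * (x1 - x2)) / ((x - x2) * (x1 - x0)))
        (((τ x - τ x0) * (τ x1 - τ x2)) / ((τ x - τ x2) * (τ x1 - τ x0))) := by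
    intro x0 h0 x1 h1 x2 h2 x hx e1 e2
    have h3 := shom_div S ((x - x0) * (x1 - x2)) ((x - x2) * (x1 - x0)) (by
      have h4 := mul_mem (hPd2 _ ((hPm _).1 hx) _ ((hPm _).1 h2))
        (hPd2 _ ((hPm _).1 h1) _ ((hPm _).1 h0))
      rw [← mul_inv] at h4
      exact h4) (by
      refine mul_ne_zero (sub_ne_zero.2 fun h => e2 (Subtype.ext h))
        (sub_ne_zero.2 fun h => e1 (Subtype.ext h.symm)))
    rw [map_mul, map_mul, map_sub, map_sub, map_sub, map_sub] at h3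
    exact h3
  refine ⟨p₀.map τ, q₀.map τ, P₀.image τ, natDegree_map_le.trans hpd, ?_, ?_, ?_, ?_, ?_, ?_⟩
  · refine le_antisymm (natDegree_map_le.trans hqd.le) (le_natDegree_of_ne_zero ?_)
    rw [coeff_map]
    have h1 : ((q₀.coeff d : dom S) : K) = (q₀.map ι).leadingCoeff := by
      rw [leadingCoeff, show (q₀.map ι).natDegree = d from hq, coeff_map]
      rfl
    refine shom_ne S _ ?_ ?_
    · rw [h1]
      exact hlead
    · rw [h1]
      exact leadingCoeff_ne_zero.2 hq00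
  · refine ⟨u₀.map τ, v₀.map τ, ?_⟩
    have h1 : u₀ * p₀ + v₀ * q₀ = 1 := by
      apply map_injective ι hι
      rw [Polynomial.map_add, Polynomial.map_mul, Polynomial.map_mul, Polynomial.map_one]
      exact huv
    rw [← Polynomial.map_mul, ← Polynomial.map_mul, ← Polynomial.map_add, h1, Polynomial.map_one]
  · intro z' hz'
    obtain ⟨z, hz, rfl⟩ := Finset.mem_image.1 hz'
    obtain ⟨h1, h2⟩ := hP _ ((hPm z).1 hz)
    have h3 := hPd3 _ ((hPm z).1 hz)
    change (eval (z : K) (q₀.map ι))⁻¹ ∈ dom S at h3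
    change eval (z : K) (q₀.map ι) ≠ 0 at h1
    change eval (z : K) (p₀.map ι) / eval (z : K) (q₀.map ι) ∈ P at h2
    rw [hev] at h1 h3
    rw [hev, hev] at h2
    have h4 := shom_ne S _ h3 h1
    rw [hev', hev']
    refine ⟨h4, ?_⟩
    have h5 := shom_div S (p₀.eval z) (q₀.eval z) h3 h1
    have h6 := hPd _ h2
    have h7 : τ ⟨_, h6⟩ = τ (p₀.eval z) / τ (q₀.eval z) := sv_eq S ⟨_, h6⟩ h5
    rw [← h7]
    exact Finset.mem_image_of_mem _ ((hPm _).2 h2)
  · rw [Finset.card_image_of_injOn hinj]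
    have e1 : P = P₀.image ι := by
      ext z
      rw [Finset.mem_image]
      constructor
      · intro hz
        exact ⟨⟨z, hPd z hz⟩, (hPm _).2 hz, rfl⟩
      · rintro ⟨z₀, hz, rfl⟩
        exact (hPm z₀).1 hz
    rw [e1, Finset.card_image_of_injective _ hι]
  · rintro c ⟨x0, h0, x1, h1, x2, h2, x, hx, e1, e2, e3, e4, e5, rfl⟩
    obtain ⟨x0, rfl⟩ : ∃ y : dom S, (y : K) = x0 := ⟨⟨x0, hPd _ h0⟩, rfl⟩
    obtain ⟨x1, rfl⟩ : ∃ y : dom S, (y : K) = x1 := ⟨⟨x1, hPd _ h1⟩, rfl⟩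
    obtain ⟨x2, rfl⟩ : ∃ y : dom S, (y : K) = x2 := ⟨⟨x2, hPd _ h2⟩, rfl⟩
    obtain ⟨x, rfl⟩ : ∃ y : dom S, (y : K) = x := ⟨⟨x, hPd _ hx⟩, rfl⟩
    rw [← hPm] at h0 h1 h2 hx
    have hn : ∀ a ∈ P₀, ∀ b ∈ P₀, (a : K) ≠ b → τ a ≠ τ b := fun a ha b hb hab h =>
      hab (congrArg Subtype.val (hinj ha hb h))
    refine ⟨_, ⟨τ x0, Finset.mem_image_of_mem _ h0, τ x1, Finset.mem_image_of_mem _ h1,
      τ x2, Finset.mem_image_of_mem _ h2, τ x, Finset.mem_image_of_mem _ hx,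
      hn _ h0 _ h1 e1, hn _ h0 _ h2 e2, hn _ h1 _ h2 e3, hn _ hx _ h2 e4, hn _ hx _ h0 e5, rfl⟩,
      hcrs x0 h0 x1 h1 x2 h2 x hx (fun h => e1 (by rw [h])) (fun h => e4 (by rw [h]))⟩
  · rintro c ⟨y0, h0', y1, h1', y2, h2', y, hy', e1, e2, e3, e4, e5, rfl⟩
    obtain ⟨x0, h0, rfl⟩ := Finset.mem_image.1 h0'
    obtain ⟨x1, h1, rfl⟩ := Finset.mem_image.1 h1'
    obtain ⟨x2, h2, rfl⟩ := Finset.mem_image.1 h2'
    obtain ⟨x, hx, rfl⟩ := Finset.mem_image.1 hy'
    have hn : ∀ a b : dom S, τ a ≠ τ b → (a : K) ≠ b := fun a b hab h =>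
      hab (by rw [Subtype.ext h])
    refine ⟨_, ⟨x0, (hPm _).1 h0, x1, (hPm _).1 h1, x2, (hPm _).1 h2, x, (hPm _).1 hx,
      hn _ _ e1, hn _ _ e2, hn _ _ e3, hn _ _ e4, hn _ _ e5, rfl⟩,
      hcrs x0 h0 x1 h1 x2 h2 x hx (fun h => e1 (by rw [h])) (fun h => e4 (by rw [h]))⟩

/-- common denominators -/
theorem den_of_mem {k L : Type} [Field k] [Field L] [Algebra k L] {σ : Type} {x : σ → L}
    {S : Set L} (hS : S.Finite) (hSx : ∀ a ∈ S, a ∈ IntermediateField.adjoin k (Set.range x)) :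
    ∃ H : MvPolynomial σ k, MvPolynomial.aeval x H ≠ 0 ∧
      ∀ a ∈ S, ∃ G : MvPolynomial σ k, a * MvPolynomial.aeval x H = MvPolynomial.aeval x G := by
  induction S, hS using Set.Finite.induction_on with
  | empty =>
    refine ⟨1, ?_, fun a ha => absurd ha (Set.notMem_empty a)⟩
    rw [map_one]
    exact one_ne_zero
  | @insert b S _ _ ih =>
    obtain ⟨H, hH, hG⟩ := ih fun a ha => hSx a (Or.inr ha)
    obtain ⟨G0, H0, h0⟩ := (IntermediateField.mem_adjoin_range_iff k x b).1 (hSx b (Or.inl rfl))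
    by_cases hH0 : MvPolynomial.aeval x H0 = 0
    · have hb0 : b = 0 := by rw [h0, hH0, div_zero]
      refine ⟨H, hH, fun a ha => ?_⟩
      rcases ha with rfl | ha
      · exact ⟨0, by rw [hb0, zero_mul, map_zero]⟩
      · exact hG a ha
    · refine ⟨H * H0, by rw [map_mul]; exact mul_ne_zero hH hH0, fun a ha => ?_⟩
      rcases ha with rfl | ha
      · refine ⟨G0 * H, ?_⟩
        rw [map_mul, map_mul, h0]
        field_simp
      · obtain ⟨G, hG'⟩ := hG a ha
        refine ⟨G * H0, ?_⟩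
        rw [map_mul, map_mul, ← hG']
        ring

/-- **EC-C3.** Specialization of algebraic elements. -/
theorem spa {k K : Type} [Field k] [Field K] [Algebra k K] {σ : Type} {m : ℕ} (c : σ → K)
    (u : Fin m → K)
    (hu : ∀ i, IsAlgebraic (IntermediateField.adjoin k (Set.range c)) (u i)) :
    ∃ Θ : Set K, Θ.Finite ∧ ∀ (E : Type) [Field E] [Algebra k E] (S : Sp k K E),
      (∀ ϑ ∈ Θ, ∃ t, S.T ϑ t) → ∀ (c' : σ → E) (u' : Fin m → E), (∀ i, S.T (c i) (c' i)) →
      (∀ i, S.T (u i) (u' i)) → ∀ i, IsAlgebraic (IntermediateField.adjoin k (Set.range c'))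
        (u' i) := by
  classical
  obtain ⟨F, hF⟩ : ∃ F, F = IntermediateField.adjoin k (Set.range c) := ⟨_, rfl⟩
  rw [← hF] at hu
  have hfin : (⋃ i, ((fun a : F => (a : K)) '' (↑(minpoly F (u i)).coeffs : Set F))).Finite :=
    Set.finite_iUnion fun i => (Finset.finite_toSet _).image _
  obtain ⟨H, hH, hG⟩ := den_of_mem (k := k) (x := c) hfin (by
    intro a ha
    obtain ⟨i, b, hb, rfl⟩ := Set.mem_iUnion.1 ha
    rw [← hF]
    exact b.2)
  refine ⟨{(MvPolynomial.aeval c H)⁻¹}, Set.finite_singleton _, ?_⟩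
  intro E _ _ S hS c' u' hc' hu' i
  have hT : ∀ G : MvPolynomial σ k, S.T (MvPolynomial.aeval c G) (MvPolynomial.aeval c' G) := by
    intro G
    induction G using MvPolynomial.induction_on with
    | C a =>
      rw [MvPolynomial.aeval_C, MvPolynomial.aeval_C]
      exact S.const a
    | add p q hp hq =>
      rw [map_add, map_add]
      exact S.add hp hq
    | mul_X p j hp =>
      rw [map_mul, map_mul, MvPolynomial.aeval_X, MvPolynomial.aeval_X]
      exact S.mul hp (hc' j)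
  obtain ⟨t, ht⟩ := hS _ rfl
  have hH' : MvPolynomial.aeval c' H ≠ 0 := S.ne_zero (hT H) ⟨t, ht⟩ hH
  have ht' : t = (MvPolynomial.aeval c' H)⁻¹ := by
    have h1 := S.mul (hT H) ht
    rw [mul_inv_cancel₀ hH] at h1
    exact eq_inv_of_mul_eq_one_right (S.ext h1 S.one)
  rw [ht'] at ht
  have hmem : ∀ G : MvPolynomial σ k,
      MvPolynomial.aeval c' G ∈ IntermediateField.adjoin k (Set.range c') := by
    intro G
    have h3 : MvPolynomial.aeval c' G ∈ Algebra.adjoin k (Set.range c') := by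
      rw [Algebra.adjoin_range_eq_range_aeval]
      exact ⟨G, rfl⟩
    exact IntermediateField.algebra_adjoin_le_adjoin k _ h3
  obtain ⟨F', hF'⟩ : ∃ F', F' = IntermediateField.adjoin k (Set.range c') := ⟨_, rfl⟩
  rw [← hF'] at hmem ⊢
  have hco : ∀ l, ∃ a : F', S.T ((minpoly F (u i)).coeff l : K) a := by
    intro l
    by_cases h0 : (minpoly F (u i)).coeff l = 0
    · refine ⟨0, ?_⟩
      rw [h0]
      exact S.zero
    · obtain ⟨G, hG'⟩ := hG _ (Set.mem_iUnion.2 ⟨i, _, coeff_mem_coeffs h0, rfl⟩)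
      refine ⟨⟨MvPolynomial.aeval c' G * (MvPolynomial.aeval c' H)⁻¹,
        mul_mem (hmem G) (inv_mem (hmem H))⟩, ?_⟩
      have h1 : ((minpoly F (u i)).coeff l : K) = MvPolynomial.aeval c G *
          (MvPolynomial.aeval c H)⁻¹ := by
        rw [← hG']
        field_simp
      rw [h1]
      exact S.mul (hT G) ht
  choose a ha using hco
  have hint : IsIntegral F (u i) := (hu i).isIntegral
  set d := (minpoly F (u i)).natDegree with hd
  have hlead : (a d : E) = 1 := by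
    have h1 := ha d
    have h2 : (minpoly F (u i)).coeff d = 1 := (minpoly.monic hint).coeff_natDegree
    rw [h2] at h1
    exact S.ext h1 S.one
  refine ⟨∑ l ∈ Finset.range (d + 1), Polynomial.C (a l) * Polynomial.X ^ l, ?_, ?_⟩
  · intro h0
    have h1 := congrArg (fun p => Polynomial.coeff p d) h0
    simp only [Polynomial.finsetSum_coeff, Polynomial.coeff_C_mul, Polynomial.coeff_X_pow,
      Polynomial.coeff_zero, mul_ite, mul_one, mul_zero, Finset.sum_ite_eq,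
      Finset.mem_range, Nat.lt_succ_self, if_true] at h1
    rw [h1] at hlead
    exact zero_ne_one hlead
  · have h1 : Polynomial.aeval (u' i) (∑ l ∈ Finset.range (d + 1),
        Polynomial.C (a l) * Polynomial.X ^ l) =
        ∑ l ∈ Finset.range (d + 1), (a l : E) * u' i ^ l := by
      rw [map_sum]
      refine Finset.sum_congr rfl fun l _ => ?_
      rw [map_mul, Polynomial.aeval_C, map_pow, Polynomial.aeval_X]
      rfl
    rw [h1]
    have h2 := S.sum (Finset.range (d + 1)) (fun l _ => S.mul (ha l) (S.pow (hu' i) l))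
    refine S.eq_zero h2 ?_
    have h3 := minpoly.aeval F (u i)
    rw [Polynomial.aeval_eq_sum_range] at h3
    simp only [Algebra.smul_def] at h3
    exact h3

/-- **EC-C1.** -/
theorem t_spr : Pool.Agent.Q103.EC.S_spr := by
  intro k L _ _ _ σ x hx Θ hΘ
  exact spr hx hΘ

/-- **EC-C2.** -/
theorem t_spm : Pool.Agent.Q103.EC.S_spm := by
  intro k K _ _ _ d p q hd hp hq hpq P hP
  exact spm hp hq hpq hd hP

/-- **EC-C3.** -/
theorem t_spa : Pool.Agent.Q103.EC.S_spa := by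
  intro k K _ _ _ N m c u hu
  exact spa c u hu

end Pool.Agent.Q149.EC
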